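import Mathlib

/-!
# MP_25d2c4_an : symmetric injective tensor powers of almost square spaces are almost square

We prove Q1: if `X` is almost square (ASQ), then so is its `N`-fold symmetric injective tensor
product, for every `N ≥ 1`.
-/

set_option autoImplicit false

open scoped TensorProduct
open PiTensorProduct

namespace Pool.Agent.Results.MP_25d2c4_an.SymmetricInjectiveASQ

/-- Almost square normed spaces. -/
def IsASQ (E : Type*) [NormedAddCommGroup E] : Prop :=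
  ∀ (k : ℕ) (x : Fin k → E), (∀ i, ‖x i‖ = 1) → ∀ ε : ℝ, 0 < ε →
    ∃ y : E, ‖y‖ = 1 ∧ ∀ i, ‖x i + y‖ ≤ 1 + ε

section Defs

variable (𝕜 : Type*) [RCLike 𝕜] (X : Type*) [NormedAddCommGroup X] [NormedSpace 𝕜 X] (N : ℕ)

/-- The `N`-fold symmetric algebraic tensor product: the span of the tensors `x ⊗ ⋯ ⊗ x`. -/
def symTensors : Submodule 𝕜 (⨂[𝕜] _i : Fin N, X) :=
  Submodule.span 𝕜 (Set.range fun x : X => tprod 𝕜 fun _i : Fin N => x)

/-- The functional `φ ⊗ ⋯ ⊗ φ` on the `N`-fold tensor product. -/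
noncomputable def powFunctional (φ : StrongDual 𝕜 X) : (⨂[𝕜] _i : Fin N, X) →ₗ[𝕜] 𝕜 :=
  lift ((MultilinearMap.mkPiAlgebra 𝕜 (Fin N) 𝕜).compLinearMap
    fun _i => (φ : X →ₗ[𝕜] 𝕜))

/-- The symmetric tensors, as a type to be normed. -/
def SymTensor : Type _ := symTensors 𝕜 X N

noncomputable instance : AddCommGroup (SymTensor 𝕜 X N) :=
  inferInstanceAs (AddCommGroup (symTensors 𝕜 X N))

noncomputable instance : Module 𝕜 (SymTensor 𝕜 X N) :=
  inferInstanceAs (Module 𝕜 (symTensors 𝕜 X N))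

/-- The inclusion of the symmetric tensors into all tensors. -/
noncomputable def incl : SymTensor 𝕜 X N →ₗ[𝕜] (⨂[𝕜] _i : Fin N, X) :=
  (symTensors 𝕜 X N).subtype

/-- The symmetric injective norm `sup_{‖φ‖ ≤ 1} |⟨φ ⊗ ⋯ ⊗ φ, u⟩|`. -/
noncomputable def injNorm (u : SymTensor 𝕜 X N) : ℝ :=
  ⨆ φ : {φ : StrongDual 𝕜 X // ‖φ‖ ≤ 1}, ‖powFunctional 𝕜 X N φ.1 (incl 𝕜 X N u)‖

end Defs

section Basic

variable {𝕜 : Type*} [RCLike 𝕜] {X : Type*} [NormedAddCommGroup X] [NormedSpace 𝕜 X] {N : ℕ}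

theorem powFunctional_tprod (φ : StrongDual 𝕜 X) (x : Fin N → X) :
    powFunctional 𝕜 X N φ (tprod 𝕜 x) = ∏ i, φ (x i) := by
  rw [powFunctional, lift.tprod]
  simp

theorem bddAbove_aux (t : ⨂[𝕜] _i : Fin N, X) : ∃ C : ℝ, ∀ φ : StrongDual 𝕜 X, ‖φ‖ ≤ 1 →
    ‖powFunctional 𝕜 X N φ t‖ ≤ C := by
  induction t using PiTensorProduct.induction_on with
  | smul_tprod r x =>
    refine ⟨‖r‖ * ∏ i, ‖x i‖, fun φ hφ => ?_⟩
    rw [map_smul, powFunctional_tprod, norm_smul, norm_prod]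
    gcongr with i _
    calc ‖φ (x i)‖ ≤ ‖φ‖ * ‖x i‖ := φ.le_opNorm _
      _ ≤ 1 * ‖x i‖ := by gcongr
      _ = ‖x i‖ := one_mul _
  | add a b ha hb =>
    obtain ⟨A, hA⟩ := ha
    obtain ⟨B, hB⟩ := hb
    refine ⟨A + B, fun φ hφ => ?_⟩
    rw [map_add]
    exact (norm_add_le _ _).trans (add_le_add (hA φ hφ) (hB φ hφ))

theorem bddAbove (u : SymTensor 𝕜 X N) : BddAbove (Set.range
    fun φ : {φ : StrongDual 𝕜 X // ‖φ‖ ≤ 1} => ‖powFunctional 𝕜 X N φ.1 (incl 𝕜 X N u)‖) := by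
  obtain ⟨C, hC⟩ := bddAbove_aux (incl 𝕜 X N u)
  refine ⟨C, ?_⟩
  rintro _ ⟨φ, rfl⟩
  exact hC φ.1 φ.2

instance : Nonempty {φ : StrongDual 𝕜 X // ‖φ‖ ≤ 1} := ⟨⟨0, by simp⟩⟩

theorem le_injNorm (u : SymTensor 𝕜 X N) {φ : StrongDual 𝕜 X} (hφ : ‖φ‖ ≤ 1) :
    ‖powFunctional 𝕜 X N φ (incl 𝕜 X N u)‖ ≤ injNorm 𝕜 X N u :=
  le_ciSup (bddAbove u) ⟨φ, hφ⟩

theorem injNorm_le (u : SymTensor 𝕜 X N) {C : ℝ}
    (h : ∀ φ : StrongDual 𝕜 X, ‖φ‖ ≤ 1 → ‖powFunctional 𝕜 X N φ (incl 𝕜 X N u)‖ ≤ C) :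
    injNorm 𝕜 X N u ≤ C :=
  ciSup_le fun φ => h φ.1 φ.2

end Basic

section Norm

variable (𝕜 : Type*) [RCLike 𝕜] (X : Type*) [NormedAddCommGroup X] [NormedSpace 𝕜 X] (N : ℕ)

/-- The symmetric injective norm makes the symmetric tensors a (semi)normed group. -/
noncomputable instance : SeminormedAddCommGroup (SymTensor 𝕜 X N) :=
  AddGroupSeminorm.toSeminormedAddCommGroup
    { toFun := injNorm 𝕜 X N
      map_zero' := by
        apply le_antisymm
        · apply injNorm_le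
          intro φ _
          simp
        · exact (norm_nonneg _).trans (le_injNorm (0 : SymTensor 𝕜 X N) (φ := 0) (by simp))
      add_le' := fun u v => by
        apply injNorm_le
        intro φ hφ
        rw [map_add, map_add]
        exact (norm_add_le _ _).trans (add_le_add (le_injNorm u hφ) (le_injNorm v hφ))
      neg' := fun u => by
        unfold injNorm
        congr 1
        funext φ
        rw [map_neg, map_neg, norm_neg] }

theorem norm_def (u : SymTensor 𝕜 X N) : ‖u‖ = injNorm 𝕜 X N u := rfl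

noncomputable instance : NormedSpace 𝕜 (SymTensor 𝕜 X N) where
  norm_smul_le c u := by
    rw [norm_def, norm_def]
    apply injNorm_le
    intro φ hφ
    rw [map_smul, map_smul, norm_smul]
    exact mul_le_mul_of_nonneg_left (le_injNorm u hφ) (norm_nonneg _)

/-- The `N`-fold symmetric injective tensor product of `X`: the completion of the symmetric
tensors for the symmetric injective norm. -/
abbrev SymInj : Type _ := UniformSpace.Completion (SymTensor 𝕜 X N)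

end Norm

variable {𝕜 : Type*} [RCLike 𝕜] {X : Type*} [NormedAddCommGroup X] [NormedSpace 𝕜 X] {N : ℕ}

/-- The elementary symmetric tensor `y ⊗ ⋯ ⊗ y`. -/
noncomputable def pw (y : X) : SymTensor 𝕜 X N :=
  (⟨tprod 𝕜 fun _i : Fin N => y, Submodule.subset_span ⟨y, rfl⟩⟩ : symTensors 𝕜 X N)

theorem incl_pw (y : X) : incl 𝕜 X N (pw y) = tprod 𝕜 fun _i : Fin N => y := rfl

theorem powFunctional_pw (φ : StrongDual 𝕜 X) (y : X) :
    powFunctional 𝕜 X N φ (incl 𝕜 X N (pw y)) = φ y ^ N := by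
  rw [incl_pw, powFunctional_tprod]
  simp

theorem powFunctional_smul (c : 𝕜) (φ : StrongDual 𝕜 X) (t : ⨂[𝕜] _i : Fin N, X) :
    powFunctional 𝕜 X N (c • φ) t = c ^ N * powFunctional 𝕜 X N φ t := by
  induction t using PiTensorProduct.induction_on with
  | smul_tprod r x =>
    rw [map_smul, map_smul, powFunctional_tprod, powFunctional_tprod]
    simp only [smul_apply, smul_eq_mul, Finset.prod_mul_distrib,
      Finset.prod_const, Finset.card_univ, Fintype.card_fin]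
    ring
  | add a b ha hb => rw [map_add, map_add, ha, hb, mul_add]

/-- A symmetric tensor only sees a finite-dimensional subspace. -/
theorem exists_fd (u : SymTensor 𝕜 X N) : ∃ E : Submodule 𝕜 X, FiniteDimensional 𝕜 E ∧
    ∀ φ ψ : StrongDual 𝕜 X, (∀ e ∈ E, φ e = ψ e) →
      powFunctional 𝕜 X N φ (incl 𝕜 X N u) = powFunctional 𝕜 X N ψ (incl 𝕜 X N u) := by
  obtain ⟨t, ht⟩ := u
  change ∃ E : Submodule 𝕜 X, FiniteDimensional 𝕜 E ∧
    ∀ φ ψ : StrongDual 𝕜 X, (∀ e ∈ E, φ e = ψ e) →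
      powFunctional 𝕜 X N φ t = powFunctional 𝕜 X N ψ t
  induction ht using Submodule.span_induction with
  | mem t h =>
    obtain ⟨x, rfl⟩ := h
    refine ⟨Submodule.span 𝕜 {x}, inferInstance, fun φ ψ h => ?_⟩
    rw [powFunctional_tprod, powFunctional_tprod]
    apply Finset.prod_congr rfl
    intro i _
    exact h x (Submodule.mem_span_singleton_self x)
  | zero => exact ⟨⊥, inferInstance, fun φ ψ _ => by simp⟩
  | add a b _ _ ha hb =>
    obtain ⟨E, hE, h1⟩ := ha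
    obtain ⟨F, hF, h2⟩ := hb
    refine ⟨E ⊔ F, inferInstance, fun φ ψ h => ?_⟩
    rw [map_add, map_add, h1 φ ψ fun e he => h e (Submodule.mem_sup_left he),
      h2 φ ψ fun e he => h e (Submodule.mem_sup_right he)]
  | smul c a _ ha =>
    obtain ⟨E, hE, h1⟩ := ha
    refine ⟨E, hE, fun φ ψ h => ?_⟩
    rw [map_smul, map_smul, h1 φ ψ h]

/-- In an ASQ space one `y` works for the whole unit ball of a finite-dimensional subspace. -/
theorem asq_ball (hX : IsASQ X) (E : Submodule 𝕜 X) [FiniteDimensional 𝕜 E] {ε : ℝ}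
    (hε : 0 < ε) : ∃ y : X, ‖y‖ = 1 ∧ ∀ e ∈ E, ‖e‖ ≤ 1 → ‖e + y‖ ≤ 1 + ε := by
  classical
  have : ProperSpace E := FiniteDimensional.proper_rclike 𝕜 E
  obtain ⟨t, ht1, ht2, ht3⟩ := (isCompact_closedBall (0 : E) 1).finite_cover_balls
    (half_pos hε)
  -- normalise the nonzero centres
  set t' : Finset X := (ht2.toFinset.image fun e : E => ((‖e‖⁻¹ : ℝ) : 𝕜) • (e : X)).filter
    (fun x => ‖x‖ = 1) with ht'
  obtain ⟨y, hy1, hy2⟩ := hX t'.card (fun i => (t'.equivFin.symm i : X))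
    (fun i => (Finset.mem_filter.mp (t'.equivFin.symm i).2).2) (ε / 2) (half_pos hε)
  have hy3 : ∀ x ∈ t', ‖x + y‖ ≤ 1 + ε / 2 := by
    intro x hx
    have := hy2 (t'.equivFin ⟨x, hx⟩)
    simpa using this
  refine ⟨y, hy1, fun e he hle => ?_⟩
  have hmem : (⟨e, he⟩ : E) ∈ Metric.closedBall (0 : E) 1 := by
    rw [mem_closedBall_zero_iff]
    exact hle
  obtain ⟨c, hc, hc2⟩ := Set.mem_iUnion₂.mp (ht3 hmem)
  have hc1 : ‖c‖ ≤ 1 := by
    have := ht1 hc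
    rwa [mem_closedBall_zero_iff] at this
  have hdist : ‖e - c‖ < ε / 2 := by
    have h := Metric.mem_ball.mp hc2
    rw [dist_eq_norm] at h
    exact h
  have hcy : ‖(c : X) + y‖ ≤ 1 + ε / 2 := by
    by_cases hc0 : c = 0
    · rw [hc0, Submodule.coe_zero, zero_add, hy1]
      linarith
    · have hn : 0 < ‖c‖ := norm_pos_iff.mpr hc0
      have hn' : ‖(c : X)‖ = ‖c‖ := rfl
      set x : X := ((‖c‖⁻¹ : ℝ) : 𝕜) • (c : X) with hx
      have hx1 : ‖x‖ = 1 := by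
        rw [hx, norm_smul, RCLike.norm_ofReal, abs_of_pos (inv_pos.mpr hn), hn',
          inv_mul_cancel₀ hn.ne']
      have hxt : x ∈ t' := by
        rw [ht', Finset.mem_filter, Finset.mem_image]
        exact ⟨⟨c, ht2.mem_toFinset.mpr hc, rfl⟩, hx1⟩
      have h1 := hy3 x hxt
      have hcx : (c : X) = ((‖c‖ : ℝ) : 𝕜) • x := by
        rw [hx, smul_smul, ← RCLike.ofReal_mul, mul_inv_cancel₀ hn.ne', RCLike.ofReal_one,
          one_smul]
      have h2 : (c : X) + y = ((‖c‖ : ℝ) : 𝕜) • (x + y) + (((1 - ‖c‖ : ℝ)) : 𝕜) • y := by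
        rw [smul_add, ← hcx, add_assoc, ← add_smul, ← RCLike.ofReal_add,
          show ‖c‖ + (1 - ‖c‖) = 1 by ring, RCLike.ofReal_one, one_smul]
      rw [h2]
      calc _ ≤ ‖((‖c‖ : ℝ) : 𝕜) • (x + y)‖ + ‖(((1 - ‖c‖ : ℝ)) : 𝕜) • y‖ := norm_add_le _ _
        _ = ‖c‖ * ‖x + y‖ + (1 - ‖c‖) := by
            rw [norm_smul, norm_smul, RCLike.norm_ofReal, RCLike.norm_ofReal, hy1, mul_one,
              abs_of_pos hn, abs_of_nonneg (by linarith)]
        _ ≤ ‖c‖ * (1 + ε / 2) + (1 - ‖c‖) := by gcongr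
        _ ≤ 1 + ε / 2 := by nlinarith
  calc ‖e + y‖ = ‖(e - c) + (c + y)‖ := by
        congr 1
        abel
    _ ≤ ‖e - c‖ + ‖(c : X) + y‖ := norm_add_le _ _
    _ ≤ ε / 2 + (1 + ε / 2) := add_le_add hdist.le hcy
    _ = 1 + ε := by ring

/-- The dual form: `‖φ|E‖ + |φ(y)| ≤ 1 + ε`. -/
theorem dual_bound (E : Submodule 𝕜 X) {ε : ℝ} {y : X}
    (hy : ∀ e ∈ E, ‖e‖ ≤ 1 → ‖e + y‖ ≤ 1 + ε) {φ : StrongDual 𝕜 X} (hφ : ‖φ‖ ≤ 1) :
    ‖φ.comp E.subtypeL‖ + ‖φ y‖ ≤ 1 + ε := by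
  have h0 : ‖φ y‖ ≤ 1 + ε := by
    calc ‖φ y‖ ≤ ‖φ‖ * ‖y‖ := φ.le_opNorm y
      _ ≤ 1 * ‖y‖ := by gcongr
      _ ≤ 1 + ε := by
        have := hy 0 E.zero_mem (by simp)
        rwa [zero_add, ← one_mul ‖y‖] at this
  have h1 : ‖φ.comp E.subtypeL‖ ≤ 1 + ε - ‖φ y‖ := by
    apply ContinuousLinearMap.opNorm_le_of_unit_norm (by linarith)
    intro e he
    change ‖φ (e : X)‖ ≤ _
    -- rotate
    obtain ⟨c, hc1, hc2⟩ : ∃ c : 𝕜, ‖c‖ = 1 ∧ ‖φ (c • (e : X) + y)‖ = ‖φ e‖ + ‖φ y‖ := by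
      by_cases hz : φ (e : X) = 0
      · refine ⟨1, by simp, ?_⟩
        rw [one_smul, map_add, hz, zero_add, norm_zero, zero_add]
      · by_cases hz' : φ y = 0
        · refine ⟨1, by simp, ?_⟩
          rw [one_smul, map_add, hz', add_zero, norm_zero, add_zero]
        · have hne : ‖φ (e : X)‖ ≠ 0 := norm_ne_zero_iff.mpr hz
          have hne' : ‖φ y‖ ≠ 0 := norm_ne_zero_iff.mpr hz'
          refine ⟨(φ y / (‖φ y‖ : ℝ)) * ((‖φ (e : X)‖ : ℝ) / φ (e : X)), ?_, ?_⟩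
          · rw [norm_mul, norm_div, norm_div, RCLike.norm_ofReal, RCLike.norm_ofReal, abs_norm,
              abs_norm, div_self hne', div_self hne, one_mul]
          · rw [map_add, map_smul, smul_eq_mul]
            have hK : ((‖φ y‖ : ℝ) : 𝕜) ≠ 0 := by exact_mod_cast hne'
            have h2 : φ y / (‖φ y‖ : ℝ) * ((‖φ (e : X)‖ : ℝ) / φ (e : X)) * φ (e : X) + φ y =
                φ y / (‖φ y‖ : ℝ) * (((‖φ (e : X)‖ + ‖φ y‖ : ℝ)) : 𝕜) := by
              rw [RCLike.ofReal_add]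
              field_simp
            rw [h2, norm_mul, norm_div, RCLike.norm_ofReal, abs_norm, div_self hne', one_mul,
              RCLike.norm_ofReal, abs_of_nonneg (by positivity)]
    have h3 : ‖c • (e : X)‖ ≤ 1 := by
      rw [norm_smul, hc1, one_mul]
      exact he.le
    have h4 := hy (c • (e : X)) (E.smul_mem c e.2) h3
    have h5 : ‖φ (c • (e : X) + y)‖ ≤ 1 + ε := by
      calc _ ≤ ‖φ‖ * ‖c • (e : X) + y‖ := φ.le_opNorm _
        _ ≤ 1 * ‖c • (e : X) + y‖ := by gcongr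
        _ ≤ 1 + ε := by rwa [one_mul]
    linarith
  linarith

/-- The bound `|u(φ)| ≤ ‖φ|E‖ ^ N ‖u‖`. -/
theorem pow_bound (hN : 1 ≤ N) (u : SymTensor 𝕜 X N) (E : Submodule 𝕜 X)
    (hE : ∀ φ ψ : StrongDual 𝕜 X, (∀ e ∈ E, φ e = ψ e) →
      powFunctional 𝕜 X N φ (incl 𝕜 X N u) = powFunctional 𝕜 X N ψ (incl 𝕜 X N u))
    (φ : StrongDual 𝕜 X) :
    ‖powFunctional 𝕜 X N φ (incl 𝕜 X N u)‖ ≤ ‖φ.comp E.subtypeL‖ ^ N * ‖u‖ := by
  obtain ⟨ψ, hψ1, hψ2⟩ := exists_extension_norm_eq E (φ.comp E.subtypeL)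
  have h1 : powFunctional 𝕜 X N φ (incl 𝕜 X N u) = powFunctional 𝕜 X N ψ (incl 𝕜 X N u) := by
    apply hE
    intro e he
    exact (hψ1 ⟨e, he⟩).symm
  rw [h1, ← hψ2]
  rcases (norm_nonneg ψ).eq_or_lt with h0 | h0
  · have hψ0 : ψ = 0 := norm_eq_zero.mp h0.symm
    have h5 := powFunctional_smul (0 : 𝕜) ψ (incl 𝕜 X N u)
    have h6 : (0 : 𝕜) • ψ = ψ := by
      apply ContinuousLinearMap.ext
      intro v
      change (0 : 𝕜) • ψ v = ψ v
      have h7 : ψ v = 0 := by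
        rw [hψ0]
        rfl
      rw [h7, smul_zero]
    rw [h6, zero_pow (by omega), zero_mul] at h5
    rw [h5, norm_zero]
    positivity
  · have h2 : ψ = ((‖ψ‖ : ℝ) : 𝕜) • (((‖ψ‖⁻¹ : ℝ) : 𝕜) • ψ) := by
      rw [smul_smul, ← RCLike.ofReal_mul, mul_inv_cancel₀ h0.ne', RCLike.ofReal_one, one_smul]
    have h3 : ‖((‖ψ‖⁻¹ : ℝ) : 𝕜) • ψ‖ ≤ 1 := by
      rw [norm_smul, RCLike.norm_ofReal, abs_of_pos (inv_pos.mpr h0), inv_mul_cancel₀ h0.ne']
    have h4 := le_injNorm u h3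
    rw [← norm_def] at h4
    calc ‖powFunctional 𝕜 X N ψ (incl 𝕜 X N u)‖
        = ‖powFunctional 𝕜 X N (((‖ψ‖ : ℝ) : 𝕜) • (((‖ψ‖⁻¹ : ℝ) : 𝕜) • ψ)) (incl 𝕜 X N u)‖ := by
          rw [← h2]
      _ = ‖ψ‖ ^ N * ‖powFunctional 𝕜 X N (((‖ψ‖⁻¹ : ℝ) : 𝕜) • ψ) (incl 𝕜 X N u)‖ := by
          rw [powFunctional_smul, norm_mul, norm_pow, RCLike.norm_ofReal, abs_norm]
      _ ≤ ‖ψ‖ ^ N * ‖u‖ := by gcongr

/-- The elementary tensor of a unit vector has norm one. -/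
theorem norm_pw {y : X} (hy : ‖y‖ = 1) : ‖(pw y : SymTensor 𝕜 X N)‖ = 1 := by
  rw [norm_def]
  apply le_antisymm
  · apply injNorm_le
    intro φ hφ
    rw [powFunctional_pw, norm_pow]
    apply pow_le_one₀ (norm_nonneg _)
    calc ‖φ y‖ ≤ ‖φ‖ * ‖y‖ := φ.le_opNorm y
      _ ≤ 1 * 1 := by rw [hy]; gcongr
      _ = 1 := one_mul 1
  · obtain ⟨φ, hφ1, hφ2⟩ := exists_dual_vector 𝕜 y (by rw [hy]; exact one_ne_zero)
    have h := le_injNorm (pw y : SymTensor 𝕜 X N) hφ1.le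
    rw [powFunctional_pw, hφ2, hy, RCLike.ofReal_one, one_pow, norm_one] at h
    exact h

/-- Q1: if `X` is ASQ, then its `N`-fold symmetric injective tensor product is ASQ for every
`N ≥ 1`. -/
theorem result (𝕜 : Type*) [RCLike 𝕜] (X : Type*) [NormedAddCommGroup X] [NormedSpace 𝕜 X]
    (hX : IsASQ X) (N : ℕ) (hN : 1 ≤ N) : IsASQ (SymInj 𝕜 X N) := by
  intro k x hx ε hε
  -- choose `δ`
  obtain ⟨δ, hδ0, hδ⟩ : ∃ δ : ℝ, 0 < δ ∧ δ + (1 + δ) * (1 + δ) ^ N ≤ 1 + ε := by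
    have hcont : Continuous fun δ : ℝ => δ + (1 + δ) * (1 + δ) ^ N := by fun_prop
    have h0 : (fun δ : ℝ => δ + (1 + δ) * (1 + δ) ^ N) 0 < 1 + ε := by
      simp only [zero_add, add_zero, one_pow, mul_one]
      linarith
    have hev := hcont.continuousAt.eventually (Iio_mem_nhds h0)
    obtain ⟨r, hr, hball⟩ := Metric.eventually_nhds_iff.mp hev
    refine ⟨r / 2, half_pos hr, ?_⟩
    have := hball (y := r / 2) (by
      rw [dist_zero_right, Real.norm_eq_abs, abs_of_pos (half_pos hr)]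
      exact half_lt_self hr)
    exact (Set.mem_Iio.mp this).le
  -- approximate
  have happ : ∀ i, ∃ u : SymTensor 𝕜 X N, ‖x i - (u : SymInj 𝕜 X N)‖ < δ := by
    intro i
    obtain ⟨u, hu⟩ := (UniformSpace.Completion.denseRange_coe
      (α := SymTensor 𝕜 X N)).exists_dist_lt (x i) hδ0
    exact ⟨u, by rwa [dist_eq_norm] at hu⟩
  choose u hu using happ
  have hunorm : ∀ i, ‖u i‖ ≤ 1 + δ := by
    intro i
    rw [← UniformSpace.Completion.norm_coe (u i)]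
    have h1 : (u i : SymInj 𝕜 X N) = x i - (x i - (u i : SymInj 𝕜 X N)) := by abel
    rw [h1]
    calc _ ≤ ‖x i‖ + ‖x i - (u i : SymInj 𝕜 X N)‖ := norm_sub_le _ _
      _ ≤ 1 + δ := by rw [hx i]; linarith [hu i]
  choose E hEfd hE using fun i => exists_fd (u i)
  have : FiniteDimensional 𝕜 (⨆ i, E i : Submodule 𝕜 X) := Submodule.finiteDimensional_iSup _
  obtain ⟨y, hy1, hy2⟩ := asq_ball hX (⨆ i, E i : Submodule 𝕜 X) hδ0
  refine ⟨((pw y : SymTensor 𝕜 X N) : SymInj 𝕜 X N), ?_, fun i => ?_⟩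
  · rw [UniformSpace.Completion.norm_coe]
    exact norm_pw hy1
  · have h1 : x i + ((pw y : SymTensor 𝕜 X N) : SymInj 𝕜 X N) =
        (x i - (u i : SymInj 𝕜 X N)) + ((u i + pw y : SymTensor 𝕜 X N) : SymInj 𝕜 X N) := by
      rw [UniformSpace.Completion.coe_add]
      abel
    have h2 : ‖u i + pw y‖ ≤ (1 + δ) * (1 + δ) ^ N := by
      rw [norm_def]
      apply injNorm_le
      intro φ hφ
      rw [map_add, map_add, powFunctional_pw]
      have h3 := pow_bound hN (u i) (⨆ i, E i : Submodule 𝕜 X)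
        (fun φ ψ h => hE i φ ψ fun e he => h e (le_iSup E i he)) φ
      have h4 := dual_bound _ hy2 hφ
      set a := ‖φ.comp (⨆ i, E i : Submodule 𝕜 X).subtypeL‖
      have ha : 0 ≤ a := norm_nonneg _
      calc _ ≤ ‖powFunctional 𝕜 X N φ (incl 𝕜 X N (u i))‖ + ‖φ y ^ N‖ := norm_add_le _ _
        _ ≤ a ^ N * (1 + δ) + (1 + δ) * ‖φ y‖ ^ N := by
            rw [norm_pow]
            apply add_le_add
            · exact h3.trans (mul_le_mul_of_nonneg_left (hunorm i) (by positivity))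
            · have : 0 ≤ ‖φ y‖ ^ N := by positivity
              nlinarith
        _ = (1 + δ) * (a ^ N + ‖φ y‖ ^ N) := by ring
        _ ≤ (1 + δ) * (a + ‖φ y‖) ^ N := by
            gcongr
            exact pow_add_pow_le ha (norm_nonneg _) (by omega)
        _ ≤ (1 + δ) * (1 + δ) ^ N := by gcongr
    rw [h1]
    calc _ ≤ ‖x i - (u i : SymInj 𝕜 X N)‖ +
          ‖((u i + pw y : SymTensor 𝕜 X N) : SymInj 𝕜 X N)‖ := norm_add_le _ _
      _ ≤ δ + (1 + δ) * (1 + δ) ^ N := by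
          rw [UniformSpace.Completion.norm_coe]
          exact add_le_add (hu i).le h2
      _ ≤ 1 + ε := hδ

end Pool.Agent.Results.MP_25d2c4_an.SymmetricInjectiveASQ
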